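import Pool.Agent.TH837.MX.Lower

/-!
Label Cover with `d`-to-1 constraints.
-/

set_option autoImplicit false

namespace Pool.Agent.TH837.MX.Lab

open Finset

/-- the `d`-to-1 maps: each label in `Fin R` has at most `d` preimages -/
abbrev Proj (d R : ℕ) : Type :=
  {π : Fin (d * R) → Fin R // ∀ b, (univ.filter fun a => π a = b).card ≤ d}

/-- the possible constraints: a right vertex, a left vertex and a `d`-to-1 map -/
abbrev Con (n d R : ℕ) : Type := (Fin n × Fin n) × Proj d R

/-- labelings: a label in `Fin (d * R)` for each right vertex and a label in `Fin R` for each left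
vertex -/
abbrev Labeling (n d R : ℕ) : Type := (Fin n → Fin (d * R)) × (Fin n → Fin R)

/-- the constraints which are satisfied by `z` -/
def sat {n d R : ℕ} (z : Labeling n d R) : Finset (Con n d R) :=
  univ.filter fun c => c.2.1 (z.1 c.1.1) = z.2 c.1.2

/-- a randomised program (with the uniform distribution on `T`) whose value is at most the optimum
(for all nonnegative weights), and which for each satisfiable set `φ` of constraints returns at
least `ρ` times the number of constraints in `φ` with probability at least `q` -/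
structure Approx {n d R : ℕ} (ρ q : ℝ) {T : Type} [Fintype T]
    (f : T → (Con n d R → ℝ) → ℝ) : Prop where
  sound : ∀ (r : T) (w : Con n d R → ℝ), (∀ c, 0 ≤ w c) →
    ∃ z : Labeling n d R, f r w ≤ ∑ c ∈ sat z, w c
  good : ∀ φ : Finset (Con n d R), (∃ z : Labeling n d R, φ ⊆ sat z) → q * Nat.card T ≤
    Nat.card {r : T // ρ * φ.card ≤ f r (fun c => if c ∈ φ then 1 else 0)}

variable {n d R : ℕ}

/-- exchanging two labels -/
def swapProj (b b' : Fin R) (π : Proj d R) : Proj d R :=
  ⟨fun a => Equiv.swap b b' (π.1 a), fun c => by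
    have h : (univ.filter fun a => Equiv.swap b b' (π.1 a) = c) =
        univ.filter fun a => π.1 a = Equiv.swap b b' c := by
      ext a
      simp only [mem_filter, mem_univ, true_and]
      constructor
      · intro h; rw [← h, Equiv.swap_apply_self]
      · intro h; rw [h, Equiv.swap_apply_self]
    rw [h]
    exact π.2 _⟩

theorem swapProj_swapProj (b b' : Fin R) (π : Proj d R) : swapProj b b' (swapProj b b' π) = π := by
  apply Subtype.ext
  funext a
  simp [swapProj]

theorem card_fix (a : Fin (d * R)) (b b' : Fin R) :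
    (univ.filter fun π : Proj d R => π.1 a = b).card =
      (univ.filter fun π : Proj d R => π.1 a = b').card := by
  refine card_bij' (fun π _ => swapProj b b' π) (fun π _ => swapProj b b' π) ?_ ?_ ?_ ?_
  · intro π hπ
    rw [mem_filter] at hπ ⊢
    exact ⟨mem_univ _, by simp [swapProj, hπ.2]⟩
  · intro π hπ
    rw [mem_filter] at hπ ⊢
    exact ⟨mem_univ _, by simp [swapProj, hπ.2]⟩
  · intro π _
    exact swapProj_swapProj b b' π
  · intro π _
    exact swapProj_swapProj b b' π

theorem card_fix_mul (a : Fin (d * R)) (b : Fin R) :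
    (univ.filter fun π : Proj d R => π.1 a = b).card * R = Fintype.card (Proj d R) := by
  rw [← card_univ (α := Proj d R), card_eq_sum_card_fiberwise (s := (univ : Finset (Proj d R)))
    (f := fun π => π.1 a) (t := univ) (fun _ _ => mem_coe.2 (mem_univ _))]
  rw [sum_congr rfl fun b' _ => card_fix a b' b, sum_const, card_univ, Fintype.card_fin,
    smul_eq_mul, mul_comm]

theorem card_sat (z : Labeling n d R) :
    (sat z).card * R = n ^ 2 * Fintype.card (Proj d R) := by
  have h : (sat z).card = ∑ ij : Fin n × Fin n,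
      (univ.filter fun π : Proj d R => π.1 (z.1 ij.1) = z.2 ij.2).card := by
    rw [sat, card_filter, Fintype.sum_prod_type]
    refine sum_congr rfl fun ij _ => ?_
    rw [card_filter]
  rw [h, sum_mul, sum_congr rfl fun ij _ => card_fix_mul _ _, sum_const, card_univ,
    Fintype.card_prod, Fintype.card_fin, smul_eq_mul]
  ring

theorem card_proj_pos : 1 ≤ Fintype.card (Proj d R) := by
  have : Nonempty (Proj d R) := by
    refine ⟨⟨fun q => (finProdFinEquiv.symm q).2, fun b => le_of_eq ?_⟩⟩
    have h1 : (univ.filter fun q : Fin (d * R) => (finProdFinEquiv.symm q).2 = b).card =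
        (univ : Finset (Fin d)).card := by
      refine card_bij' (fun q _ => (finProdFinEquiv.symm q).1)
        (fun i _ => finProdFinEquiv (i, b)) ?_ ?_ ?_ ?_
      · intro q _
        exact mem_univ _
      · intro i _
        rw [mem_filter]
        exact ⟨mem_univ _, by rw [Equiv.symm_apply_apply]⟩
      · intro q hq
        rw [mem_filter] at hq
        rw [← hq.2]
        exact finProdFinEquiv.apply_symm_apply q
      · intro i _
        rw [Equiv.symm_apply_apply]
    rw [h1, card_univ, Fintype.card_fin]
  exact Fintype.card_pos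

/-- the system -/
def labSys (n d R : ℕ) : Sys (Con n d R) (Fin (d * R)) (Fin R) Unit (Labeling n d R) n where
  a c := c.1.1
  b c := c.1.2
  Pl c x y _ := c.2.1 x = y
  Sat := sat

open Classical in
theorem planted (x : Asg (Fin (d * R)) (Fin R) Unit n) :
    (labSys n d R).pl x = sat (x.1, x.2.1) := by
  rw [Sys.pl, sat]
  ext c
  simp only [mem_filter]
  rfl

open Classical in
theorem labReg (hd : 1 ≤ d) (hR : 1 ≤ R) : Reg (labSys n d R) (1 / R) (Fintype.card (Proj d R))
    (1 / R) (n ^ 2 * Fintype.card (Proj d R) / R) where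
  m0 := by
    have := card_proj_pos (d := d) (R := R)
    exact_mod_cast this
  ρ0 := by positivity
  τ0 := by positivity
  τ1 := by
    have : (1 : ℝ) ≤ R := by exact_mod_cast hR
    rw [div_le_one (by linarith)]
    exact this
  rowA := by
    intro c y g
    have hR' : (0 : ℝ) < R := by exact_mod_cast hR
    have h1 : (univ.filter fun x => (labSys n d R).Pl c x y g).card ≤ d := by
      have h2 : (univ.filter fun x => (labSys n d R).Pl c x y g) =
          univ.filter fun x => c.2.1 x = y := by
        ext x
        simp only [mem_filter]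
        rfl
      rw [h2]
      exact c.2.2 y
    have h2 : 1 / (R : ℝ) * Fintype.card (Fin (d * R)) = d := by
      rw [Fintype.card_fin]
      push_cast
      field_simp
    rw [h2]
    exact_mod_cast h1
  rowB := by
    intro c x g
    have hR' : (0 : ℝ) < R := by exact_mod_cast hR
    have h1 : (univ.filter fun y => (labSys n d R).Pl c x y g).card ≤ 1 := by
      rw [card_le_one]
      intro y hy y' hy'
      rw [mem_filter] at hy hy'
      have h2 : c.2.1 x = y := hy.2
      have h3 : c.2.1 x = y' := hy'.2
      rw [← h2, h3]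
    have h2 : 1 / (R : ℝ) * Fintype.card (Fin R) = 1 := by
      rw [Fintype.card_fin]
      field_simp
    rw [h2]
    exact_mod_cast h1
  pair := by
    intro i j
    have h1 : (univ.filter fun c : Con n d R => (labSys n d R).a c = i ∧
        (labSys n d R).b c = j).card ≤ (univ : Finset (Proj d R)).card := by
      refine card_le_card_of_injOn (fun c => c.2) (fun _ _ => mem_coe.2 (mem_univ _)) ?_
      intro c hc c' hc' h
      rw [mem_coe, mem_filter] at hc hc'
      obtain ⟨⟨v1, v2⟩, s⟩ := c
      obtain ⟨⟨v1', v2'⟩, s'⟩ := c'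
      have h1 : v1 = i := hc.2.1
      have h2 : v2 = j := hc.2.2
      have h1' : v1' = i := hc'.2.1
      have h2' : v2' = j := hc'.2.2
      have h3 : s = s' := h
      rw [h1, h2, h1', h2', h3]
    rw [card_univ] at h1
    exact_mod_cast h1
  sat := by
    intro z
    have hR' : (0 : ℝ) < R := by exact_mod_cast hR
    have h1 : ((sat z).card : ℝ) * R = n ^ 2 * Fintype.card (Proj d R) := by
      exact_mod_cast card_sat z
    have h2 : (((labSys n d R).Sat z).card : ℝ) = n ^ 2 * Fintype.card (Proj d R) / R := by
      rw [← h1]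
      field_simp
      rfl
    rw [h2]

/-- the exponent -/
noncomputable def labGam (d R : ℕ) (ε : ℝ) : ℝ := gam (Real.log (d * R * R)) (1 / R) ε

theorem log_nonneg (hd : 1 ≤ d) (hR : 1 ≤ R) : 0 ≤ Real.log (d * R * R) := by
  apply Real.log_nonneg
  have h1 : 1 ≤ d * R * R := Nat.mul_pos (Nat.mul_pos hd hR) hR
  exact_mod_cast h1

theorem labGam_pos (hd : 1 ≤ d) (hR : 1 ≤ R) {ε : ℝ} (hε : 0 < ε) : 0 < labGam d R ε := by
  have : (0 : ℝ) < R := by exact_mod_cast hR
  exact gam_pos (log_nonneg hd hR) (by positivity) hε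

theorem lab_lower (hd : 1 ≤ d) (hR : 1 ≤ R) {ε : ℝ} (hε : 0 < ε) (hε1 : ε ≤ 1) {T : Type}
    [Fintype T] [Nonempty T] {f : T → (Con n d R → ℝ) → ℝ}
    (hf : Approx (1 / R + ε) ((2 : ℝ) ^ (-(labGam d R ε * n))) f)
    {s : ℕ} (hs : ∀ r, Computes (f r) s) : (2 : ℝ) ^ (labGam d R ε * n) ≤ s + 1 := by
  classical
  have hR' : (0 : ℝ) < R := by exact_mod_cast hR
  have hd' : (0 : ℝ) < d := by exact_mod_cast hd
  have : NeZero R := ⟨by omega⟩
  have : NeZero (d * R) := ⟨by positivity⟩
  refine lower (S := labSys n d R) (B := Real.log (d * R * R)) (ν := 1 / R) (labReg hd hR) hε hε1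
    (by positivity) (le_of_eq (by ring)) (by exact_mod_cast card_proj_pos)
    (log_nonneg hd hR) ?_ ?_ hf.sound (fun x => ?_) hs
  · rw [mul_comm (Real.log _) (n : ℝ), Real.exp_nat_mul, Real.exp_log (by positivity)]
    have h1 : Fintype.card (Labeling n d R) = (d * R * R) ^ n := by
      simp only [Fintype.card_prod, Fintype.card_fun, Fintype.card_fin]
      rw [← mul_pow]
    rw [h1]
    push_cast
    exact le_rfl
  · exact Fintype.card_pos
  · have h1 := hf.good ((labSys n d R).pl x) ⟨(x.1, x.2.1), by rw [planted]⟩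
    have h2 : (((labSys n d R).pl x).card : ℝ) = n ^ 2 * Fintype.card (Proj d R) / R := by
      have h3 : ((sat (x.1, x.2.1) : Finset (Con n d R)).card : ℝ) * R =
          n ^ 2 * Fintype.card (Proj d R) := by
        exact_mod_cast card_sat (x.1, x.2.1)
      rw [planted, ← h3]
      field_simp
    rw [← h2]
    convert h1 using 6
    · rfl
    · exact congrArg _ (funext fun e => by congr)

/-- the labelings with constant labels -/
def cst (n : ℕ) (x : Fin (d * R)) (b : Fin R) : Labeling n d R := (fun _ => x, fun _ => b)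

/-- the program of ratio `1 / R` -/
noncomputable def labProg (n : ℕ) (x : Fin (d * R)) : (Con n d R → ℝ) → ℝ :=
  maxTot ((univ : Finset (Fin R)).toList.map fun b => sat (cst n x b))

theorem one_label (x : Fin (d * R)) (c : Con n d R) :
    (univ.filter fun b : Fin R => c.2.1 ((cst n x b).1 c.1.1) = (cst n x b).2 c.1.2).card = 1 := by
  rw [card_eq_one]
  refine ⟨c.2.1 x, ?_⟩
  ext b
  rw [mem_filter, mem_singleton]
  exact ⟨fun h => h.2.symm, fun h => ⟨mem_univ _, h.symm⟩⟩

theorem labProg_computes (n : ℕ) (x : Fin (d * R)) :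
    Computes (labProg n x) (2 * Fintype.card (Con n d R) + R + 1) := by
  have h := computes_maxTot ((univ : Finset (Fin R)).toList.map fun b => sat (cst n x b))
  have h1 : (((univ : Finset (Fin R)).toList.map
      fun b => sat (cst n x b)).map Finset.card).sum = Fintype.card (Con n d R) := by
    rw [List.map_map, sum_map_toList]
    simp only [Function.comp_apply, sat, card_filter]
    rw [sum_comm]
    simp only [← card_filter, one_label, sum_const, card_univ, smul_eq_mul, mul_one]
  rw [h1, List.length_map, length_toList, card_univ, Fintype.card_fin] at h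
  obtain ⟨l, h3, h4, h5⟩ := h
  exact ⟨l, h3, h4, h5.trans (by omega)⟩

theorem labProg_sound (hR : 1 ≤ R) (x : Fin (d * R)) (w : Con n d R → ℝ) (hw : ∀ c, 0 ≤ w c) :
    ∃ z : Labeling n d R, labProg n x w ≤ ∑ c ∈ sat z, w c := by
  rcases maxTot_le (As := (univ : Finset (Fin R)).toList.map
    fun b => sat (cst n x b)) w with h | ⟨A, hA, h⟩
  · exact ⟨cst n x ⟨0, hR⟩, by
      rw [labProg, h]; exact sum_nonneg fun c _ => hw c⟩
  · obtain ⟨b, _, rfl⟩ := List.mem_map.1 hA
    exact ⟨cst n x b, by rw [labProg, h, tot]⟩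

theorem labProg_good (hR : 1 ≤ R) (x : Fin (d * R)) (w : Con n d R → ℝ) (hw : ∀ c, 0 ≤ w c)
    (z : Labeling n d R) : 1 / R * ∑ c ∈ sat z, w c ≤ labProg n x w := by
  have hR' : (0 : ℝ) < R := by exact_mod_cast hR
  have h1 : ∀ b : Fin R, ∑ c ∈ sat (cst n x b), w c ≤ labProg n x w := fun b =>
    le_maxTot (w := w) _ (List.mem_map.2 ⟨b, by simp, rfl⟩)
  have h2 : ∑ b : Fin R, ∑ c ∈ sat (cst n x b), w c = ∑ c, w c := by
    simp only [sat, sum_filter]
    rw [sum_comm]
    refine sum_congr rfl fun c _ => ?_
    rw [← sum_filter, sum_const, one_label, one_smul]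
  have h3 : ∑ b : Fin R, ∑ c ∈ sat (cst n x b), w c ≤ R * labProg n x w := by
    calc _ ≤ ∑ _b : Fin R, labProg n x w := sum_le_sum fun b _ => h1 b
      _ = _ := by rw [sum_const, card_univ, nsmul_eq_mul, Fintype.card_fin]
  have h4 : ∑ c ∈ sat z, w c ≤ ∑ c, w c :=
    sum_le_sum_of_subset_of_nonneg (subset_univ _) fun c _ _ => hw c
  rw [one_div, inv_mul_le_iff₀ hR']
  linarith

end Pool.Agent.TH837.MX.Lab
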