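import Pool.Agent.TH837.MX.Lower

/-!
MAX-3SAT.
-/

set_option autoImplicit false

namespace Pool.Agent.TH837.MX

open Finset

/-- clauses with a variable from each of three groups of `n` variables and with three signs -/
abbrev Clause (n : ℕ) : Type := (Fin n × Fin n × Fin n) × (Bool × Bool × Bool)

/-- assignments of the three groups of variables -/
abbrev Truth (n : ℕ) : Type := (Fin n → Bool) × ((Fin n → Bool) × (Fin n → Bool))

/-- the clauses which are satisfied by `z`: one of the three variables has the value which is given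
by its sign -/
def sat {n : ℕ} (z : Truth n) : Finset (Clause n) :=
  univ.filter fun c => z.1 c.1.1 = c.2.1 ∨ z.2.1 c.1.2.1 = c.2.2.1 ∨ z.2.2 c.1.2.2 = c.2.2.2

/-- a randomised program (with the uniform distribution on `R`) whose value is at most the optimum
(for all nonnegative weights), and which for each satisfiable formula `φ` returns at least
`ρ` times the number of clauses of `φ` with probability at least `q` -/
structure Approx {n : ℕ} (ρ q : ℝ) {R : Type} [Fintype R] (f : R → (Clause n → ℝ) → ℝ) : Prop where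
  sound : ∀ (r : R) (w : Clause n → ℝ), (∀ c, 0 ≤ w c) → ∃ z : Truth n, f r w ≤ ∑ c ∈ sat z, w c
  good : ∀ φ : Finset (Clause n), (∃ z : Truth n, φ ⊆ sat z) → q * Nat.card R ≤
    Nat.card {r : R // ρ * φ.card ≤ f r (fun c => if c ∈ φ then 1 else 0)}

variable {n : ℕ}

/-- the system: the planted clauses have an odd number of true literals -/
def satSys (n : ℕ) : Sys (Clause n) Bool Bool (Fin n → Bool) (Truth n) n where
  a c := c.1.1
  b c := c.1.2.1
  Pl c x y g := (xor (xor (x == c.2.1) (y == c.2.2.1)) (g c.1.2.2 == c.2.2.2)) = true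
  Sat := sat

theorem card_prod_filter {A B : Type} [Fintype A] [Fintype B] (p : A → B → Prop)
    [∀ a, DecidablePred (p a)] [DecidablePred fun x : A × B => p x.1 x.2] {k : ℕ}
    (h : ∀ a, (univ.filter fun b => p a b).card = k) :
    (univ.filter fun x : A × B => p x.1 x.2).card = Fintype.card A * k := by
  rw [card_filter, Fintype.sum_prod_type]
  have h2 : ∀ a : A, (∑ b : B, if p a b then 1 else 0) = k := by
    intro a
    rw [← h a, card_filter]
  calc _ = ∑ _a : A, k := by
        refine sum_congr rfl fun a _ => ?_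
        rw [← h2 a]
        refine sum_congr rfl fun b _ => ?_
        by_cases hp : p a b <;> simp [hp]
    _ = _ := by rw [sum_const, card_univ, smul_eq_mul]

theorem card_sat (z : Truth n) : (sat z).card = n ^ 3 * 7 := by
  have h := card_prod_filter (A := Fin n × Fin n × Fin n) (B := Bool × Bool × Bool)
    (fun v s => z.1 v.1 = s.1 ∨ z.2.1 v.2.1 = s.2.1 ∨ z.2.2 v.2.2 = s.2.2) (k := 7) (fun v => by
      generalize z.1 v.1 = a
      generalize z.2.1 v.2.1 = b
      generalize z.2.2 v.2.2 = c
      revert a b c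
      decide)
  rw [sat, h]
  simp only [Fintype.card_prod, Fintype.card_fin]
  ring

open Classical in
theorem card_planted (x : Truth n) : ((satSys n).pl x).card = n ^ 3 * 4 := by
  have h := card_prod_filter (A := Fin n × Fin n × Fin n) (B := Bool × Bool × Bool)
    (fun v s => (xor (xor (x.1 v.1 == s.1) (x.2.1 v.2.1 == s.2.1)) (x.2.2 v.2.2 == s.2.2)) = true)
    (k := 4) (fun v => by
      generalize x.1 v.1 = a
      generalize x.2.1 v.2.1 = b
      generalize x.2.2 v.2.2 = c
      revert a b c
      decide)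
  have h' : ((satSys n).pl x).card = (univ.filter fun c : Clause n =>
      (xor (xor (x.1 c.1.1 == c.2.1) (x.2.1 c.1.2.1 == c.2.2.1))
        (x.2.2 c.1.2.2 == c.2.2.2)) = true).card := by
    rw [Sys.pl]
    congr 1
    ext c
    simp only [mem_filter]
    rfl
  rw [h', h]
  simp only [Fintype.card_prod, Fintype.card_fin]
  ring

open Classical in
theorem planted_sat (x : Truth n) : (satSys n).pl x ⊆ sat x := by
  intro c hc
  rw [Sys.pl, mem_filter] at hc
  have h : (xor (xor (x.1 c.1.1 == c.2.1) (x.2.1 c.1.2.1 == c.2.2.1))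
        (x.2.2 c.1.2.2 == c.2.2.2)) = true := hc.2
  rw [sat, mem_filter]
  refine ⟨mem_univ _, ?_⟩
  revert h
  generalize x.1 c.1.1 = a
  generalize x.2.1 c.1.2.1 = b
  generalize x.2.2 c.1.2.2 = d
  generalize c.2.1 = a'
  generalize c.2.2.1 = b'
  generalize c.2.2.2 = d'
  revert a b d a' b' d'
  decide

open Classical in
theorem satReg (hn : 0 < n) : Reg (satSys n) (1 / 2) (8 * n) (7 / 8) (4 * n ^ 3) where
  m0 := by positivity
  ρ0 := by norm_num
  τ0 := by norm_num
  τ1 := by norm_num
  rowA := by
    intro c y g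
    have h : (univ.filter fun x => (satSys n).Pl c x y g).card = 1 := by
      have h1 : (univ.filter fun x => (satSys n).Pl c x y g) = univ.filter fun x : Bool =>
          (xor (xor (x == c.2.1) (y == c.2.2.1)) (g c.1.2.2 == c.2.2.2)) = true := by
        ext x
        simp only [mem_filter]
        rfl
      rw [h1]
      clear h1
      generalize g c.1.2.2 = d
      generalize c.2.1 = a'
      generalize c.2.2.1 = b'
      generalize c.2.2.2 = d'
      revert y d a' b' d'
      decide
    rw [h]
    simp
  rowB := by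
    intro c x g
    have h : (univ.filter fun y => (satSys n).Pl c x y g).card = 1 := by
      have h1 : (univ.filter fun y => (satSys n).Pl c x y g) = univ.filter fun y : Bool =>
          (xor (xor (x == c.2.1) (y == c.2.2.1)) (g c.1.2.2 == c.2.2.2)) = true := by
        ext y
        simp only [mem_filter]
        rfl
      rw [h1]
      clear h1
      generalize g c.1.2.2 = d
      generalize c.2.1 = a'
      generalize c.2.2.1 = b'
      generalize c.2.2.2 = d'
      revert x d a' b' d'
      decide
    rw [h]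
    simp
  pair := by
    intro i j
    have h1 : (univ.filter fun c : Clause n => (satSys n).a c = i ∧ (satSys n).b c = j).card ≤
        (univ : Finset (Fin n × (Bool × Bool × Bool))).card := by
      refine card_le_card_of_injOn (fun c => (c.1.2.2, c.2)) (fun _ _ => mem_coe.2 (mem_univ _)) ?_
      intro c hc c' hc' h
      rw [mem_coe, mem_filter] at hc hc'
      obtain ⟨⟨v1, v2, v3⟩, s⟩ := c
      obtain ⟨⟨v1', v2', v3'⟩, s'⟩ := c'
      simp only [Prod.mk.injEq] at h
      have h1 : v1 = i := hc.2.1
      have h2 : v2 = j := hc.2.2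
      have h1' : v1' = i := hc'.2.1
      have h2' : v2' = j := hc'.2.2
      rw [h1, h2, h1', h2', h.1, h.2]
    have h2 : (univ : Finset (Fin n × (Bool × Bool × Bool))).card = 8 * n := by
      rw [card_univ]
      simp only [Fintype.card_prod, Fintype.card_fin, Fintype.card_bool]
      ring
    rw [h2] at h1
    exact_mod_cast h1
  sat := by
    intro z
    have h : ((satSys n).Sat z).card = n ^ 3 * 7 := card_sat z
    rw [h]
    push_cast
    ring_nf
    exact le_rfl

/-- the exponent -/
noncomputable def satGam (ε : ℝ) : ℝ := gam 3 (1 / 2) ε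

theorem satGam_pos {ε : ℝ} (hε : 0 < ε) : 0 < satGam ε :=
  gam_pos (by norm_num) (by norm_num) hε

theorem sat_lower {ε : ℝ} (hε : 0 < ε) (hε1 : ε ≤ 1) {R : Type} [Fintype R] [Nonempty R]
    {f : R → (Clause n → ℝ) → ℝ} (hf : Approx (7 / 8 + ε) ((2 : ℝ) ^ (-(satGam ε * n))) f)
    {s : ℕ} (hs : ∀ r, Computes (f r) s) : (2 : ℝ) ^ (satGam ε * n) ≤ s + 1 := by
  classical
  rcases Nat.eq_zero_or_pos n with rfl | hn
  · simp
  have hn1 : (1 : ℝ) ≤ n := by exact_mod_cast hn
  refine lower (S := satSys n) (B := 3) (ν := 1 / 2) (satReg hn) hε hε1 (by norm_num)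
    (by ring_nf; exact le_rfl) (by linarith) (by norm_num) ?_ ?_ hf.sound (fun x => ?_) hs
  · have h1 : Fintype.card (Truth n) = 8 ^ n := by
      simp only [Fintype.card_prod, Fintype.card_fun, Fintype.card_fin, Fintype.card_bool]
      rw [← mul_pow, ← mul_pow]
      norm_num
    rw [h1]
    push_cast
    have h2 : (8 : ℝ) ≤ Real.exp 3 := by
      have h3 : (2 : ℝ) ≤ Real.exp 1 := by
        have := Real.add_one_le_exp (1 : ℝ); linarith
      calc (8 : ℝ) = 2 ^ 3 := by norm_num
        _ ≤ Real.exp 1 ^ 3 := pow_le_pow_left₀ (by norm_num) h3 3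
        _ = Real.exp 3 := by rw [← Real.exp_nat_mul]; norm_num
    calc (8 : ℝ) ^ n ≤ Real.exp 3 ^ n := pow_le_pow_left₀ (by norm_num) h2 n
      _ = Real.exp (3 * n) := by rw [← Real.exp_nat_mul]; congr 1; ring
  · exact Fintype.card_pos
  · have h1 := hf.good ((satSys n).pl x) ⟨x, planted_sat x⟩
    have h2 : (7 / 8 + ε) * (4 * (n : ℝ) ^ 3) = (7 / 8 + ε) * ((satSys n).pl x).card := by
      rw [card_planted]; push_cast; ring
    rw [h2]
    convert h1 using 6
    · rfl
    · exact congrArg _ (funext fun e => by congr)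

/-- the assignment with constant values on the groups -/
def cst (n : ℕ) (b : Bool × Bool × Bool) : Truth n := (fun _ => b.1, fun _ => b.2.1, fun _ => b.2.2)

/-- the program of ratio `7 / 8` -/
noncomputable def satProg (n : ℕ) : (Clause n → ℝ) → ℝ :=
  maxTot ((univ : Finset (Bool × Bool × Bool)).toList.map fun b => sat (cst n b))

theorem satProg_computes (n : ℕ) : Computes (satProg n) (64 * n ^ 3 + 9) := by
  have h := computes_maxTot ((univ : Finset (Bool × Bool × Bool)).toList.map
    fun b => sat (cst n b))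
  have h1 : (((univ : Finset (Bool × Bool × Bool)).toList.map
      fun b => sat (cst n b)).map Finset.card).sum = 56 * n ^ 3 := by
    rw [List.map_map, sum_map_toList]
    simp only [Function.comp_apply, card_sat, sum_const, card_univ, Fintype.card_prod,
      Fintype.card_bool, smul_eq_mul]
    ring
  have h2 : Fintype.card (Clause n) = 8 * n ^ 3 := by
    simp only [Fintype.card_prod, Fintype.card_fin, Fintype.card_bool]
    ring
  rw [h1, h2, List.length_map, length_toList, card_univ] at h
  simp only [Fintype.card_prod, Fintype.card_bool] at h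
  obtain ⟨l, h3, h4, h5⟩ := h
  exact ⟨l, h3, h4, h5.trans (by omega)⟩

theorem satProg_sound (w : Clause n → ℝ) (hw : ∀ c, 0 ≤ w c) :
    ∃ z : Truth n, satProg n w ≤ ∑ c ∈ sat z, w c := by
  rcases maxTot_le (As := (univ : Finset (Bool × Bool × Bool)).toList.map
    fun b => sat (cst n b)) w with h | ⟨A, hA, h⟩
  · exact ⟨cst n (false, false, false), by
      rw [satProg, h]; exact sum_nonneg fun c _ => hw c⟩
  · obtain ⟨b, _, rfl⟩ := List.mem_map.1 hA
    exact ⟨cst n b, by rw [satProg, h, tot]⟩

theorem seven : ∀ a b d : Bool, (univ.filter fun s : Bool × Bool × Bool =>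
    s.1 = a ∨ s.2.1 = b ∨ s.2.2 = d).card = 7 := by
  decide

theorem satProg_good (w : Clause n → ℝ) (hw : ∀ c, 0 ≤ w c) (z : Truth n) :
    7 / 8 * ∑ c ∈ sat z, w c ≤ satProg n w := by
  have h1 : ∀ b : Bool × Bool × Bool, ∑ c ∈ sat (cst n b), w c ≤ satProg n w := fun b =>
    le_maxTot (w := w) _ (List.mem_map.2 ⟨b, by simp, rfl⟩)
  have h2 : ∑ b : Bool × Bool × Bool, ∑ c ∈ sat (cst n b), w c = 7 * ∑ c, w c := by
    simp only [sat, sum_filter]
    rw [sum_comm, mul_sum]
    refine sum_congr rfl fun c _ => ?_
    rw [← sum_filter, sum_const, nsmul_eq_mul]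
    congr 1
    have : (univ.filter fun b : Bool × Bool × Bool => (cst n b).1 c.1.1 = c.2.1 ∨
        (cst n b).2.1 c.1.2.1 = c.2.2.1 ∨ (cst n b).2.2 c.1.2.2 = c.2.2.2).card = 7 := by
      convert seven c.2.1 c.2.2.1 c.2.2.2 <;> rfl
    rw [this]
    norm_num
  have h3 : ∑ b : Bool × Bool × Bool, ∑ c ∈ sat (cst n b), w c ≤ 8 * satProg n w := by
    calc _ ≤ ∑ _b : Bool × Bool × Bool, satProg n w := sum_le_sum fun b _ => h1 b
      _ = _ := by
        rw [sum_const, card_univ, nsmul_eq_mul]
        norm_num
  have h4 : ∑ c ∈ sat z, w c ≤ ∑ c, w c :=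
    sum_le_sum_of_subset_of_nonneg (subset_univ _) fun c _ _ => hw c
  linarith

end Pool.Agent.TH837.MX
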